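import Pool.Agent.H19.SYA.TB

/-!
Row EXX of the board `sya_modules`: auxiliary lemmas.
-/

set_option autoImplicit false

namespace Pool.Agent.H11.SYA

open MvPolynomial Pool.Agent.H2.ST Pool.Agent.H15.TG Pool.Agent.H19.SYA

/-- independence after a triangular change of the third element -/
theorem ind_tri {k L : Type} [Field k] [Field L] [Algebra k L] (v : Fin 3 → L)
    (hv : AlgebraicIndependent k v) (ζ r : L) (a : k) (ha : a ≠ 0) (e e' : ℕ)
    (hr : r ∈ Algebra.adjoin k ({v 0, v 1} : Set L))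
    (h : ζ * v 0 ^ e' = algebraMap k L a * v 0 ^ e * v 2 + r) :
    AlgebraicIndependent k ![v 0, v 1, ζ] := by
  have h0 : v 0 ≠ 0 := hv.ne_zero 0
  have haL : algebraMap k L a ≠ 0 := (map_ne_zero _).2 ha
  have himg : ∀ x : Fin 3 → L, x '' ({2}ᶜ : Set (Fin 3)) = {x 0, x 1} := by
    intro x
    ext y
    simp only [Set.mem_image, Set.mem_compl_iff, Set.mem_singleton_iff, Set.mem_insert_iff]
    constructor
    · rintro ⟨i, hi, rfl⟩
      fin_cases i
      · exact Or.inl rfl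
      · exact Or.inr rfl
      · exact absurd rfl hi
    · rintro (rfl | rfl)
      · exact ⟨0, by decide, rfl⟩
      · exact ⟨1, by decide, rfl⟩
  rw [AlgebraicIndependent.iff_transcendental_adjoin_image (2 : Fin 3)] at hv ⊢
  obtain ⟨hv1, hv2⟩ := hv
  refine ⟨?_, ?_⟩
  · have : (fun j : {j : Fin 3 // j ≠ 2} => (![v 0, v 1, ζ] : Fin 3 → L) j) =
        fun j : {j : Fin 3 // j ≠ 2} => v j := by
      funext ⟨j, hj⟩
      fin_cases j
      · rfl
      · rfl
      · exact absurd rfl hj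
    rw [this]; exact hv1
  · rw [himg] at hv2 ⊢
    intro halg
    apply hv2
    have h1 : (![v 0, v 1, ζ] : Fin 3 → L) 2 = ζ := rfl
    have h2 : (![v 0, v 1, ζ] : Fin 3 → L) 0 = v 0 := rfl
    have h3 : (![v 0, v 1, ζ] : Fin 3 → L) 1 = v 1 := rfl
    rw [h1, h2, h3] at halg
    have hal : ∀ x ∈ Algebra.adjoin k ({v 0, v 1} : Set L),
        IsAlgebraic (Algebra.adjoin k ({v 0, v 1} : Set L)) x := fun x hx =>
      isAlgebraic_algebraMap (⟨x, hx⟩ : Algebra.adjoin k ({v 0, v 1} : Set L))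
    have hv0 : v 0 ∈ Algebra.adjoin k ({v 0, v 1} : Set L) :=
      Algebra.subset_adjoin (Set.mem_insert _ _)
    have h4 : v 2 = (ζ * v 0 ^ e' - r) * (algebraMap k L a * v 0 ^ e)⁻¹ := by
      rw [h]
      field_simp
      ring
    rw [h4]
    refine ((halg.mul (hal _ (Subalgebra.pow_mem _ hv0 _))).sub (hal _ hr)).mul ?_
    exact (hal _ (Subalgebra.mul_mem _ (Subalgebra.algebraMap_mem _ _)
      (Subalgebra.pow_mem _ hv0 _))).inv

/-- a polynomial with vanishing derivative in the third variable -/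
theorem aeval_mem_of_pderiv {k L : Type} [Field k] [CharZero k] [Field L] [Algebra k L]
    (v : Fin 3 → L) (P : MvPolynomial (Fin 3) k) (hP : pderiv 2 P = 0) :
    aeval v P ∈ Algebra.adjoin k ({v 0, v 1} : Set L) := by
  classical
  have hs : ∀ s ∈ P.support, s 2 = 0 := by
    intro s hs
    by_contra hne
    have h1 := congrArg (coeff (s - Finsupp.single 2 1)) hP
    rw [coeff_pderiv, coeff_zero] at h1
    have h2 : s - Finsupp.single 2 1 + Finsupp.single 2 1 = s :=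
      tsub_add_cancel_of_le (by
        rw [Finsupp.single_le_iff]; omega)
    rw [h2] at h1
    have h3 : coeff s P ≠ 0 := mem_support_iff.1 hs
    have h4 : (((s - Finsupp.single 2 1 : Fin 3 →₀ ℕ) 2 : ℕ) : k) + 1 ≠ 0 :=
      Nat.cast_add_one_ne_zero _
    rcases mul_eq_zero.1 h1 with h | h
    · exact h3 h
    · exact h4 h
  rw [P.as_sum, map_sum]
  refine Subalgebra.sum_mem _ fun s hs' => ?_
  rw [aeval_monomial, Finsupp.prod_fintype _ _ (fun _ => pow_zero _), Fin.prod_univ_three,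
    hs s hs', pow_zero, mul_one]
  refine Subalgebra.mul_mem _ (Subalgebra.algebraMap_mem _ _) (Subalgebra.mul_mem _ ?_ ?_)
  · exact Subalgebra.pow_mem _ (Algebra.subset_adjoin (Set.mem_insert _ _)) _
  · exact Subalgebra.pow_mem _ (Algebra.subset_adjoin
      (Set.mem_insert_of_mem _ (Set.mem_singleton _))) _

/-- homogenization in the last variable -/
theorem hom_ex {k : Type} [Field k] (P : MvPolynomial (Fin 4) k) :
    ∃ (d : ℕ) (Ph : MvPolynomial (Fin 5) k), ∀ (R : Type) [CommRing R] [Algebra k R]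
      (a0 a1 a2 s b : R), aeval ![a0, a1, a2, s * b, b] Ph =
        aeval ![a0, a1, a2, s] P * b ^ d := by
  induction P using MvPolynomial.induction_on with
  | C a =>
    refine ⟨0, C a, ?_⟩
    intro R _ _ a0 a1 a2 s b
    rw [aeval_C, aeval_C, pow_zero, mul_one]
  | add P Q hP hQ =>
    obtain ⟨d1, P1, h1⟩ := hP
    obtain ⟨d2, P2, h2⟩ := hQ
    refine ⟨d1 + d2, P1 * X 4 ^ d2 + P2 * X 4 ^ d1, ?_⟩
    intro R _ _ a0 a1 a2 s b
    have h4 : aeval ![a0, a1, a2, s * b, b] (X 4 : MvPolynomial (Fin 5) k) = b := by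
      rw [aeval_X]; rfl
    rw [map_add, map_mul, map_mul, map_pow, map_pow, h4, h1, h2, map_add]
    ring
  | mul_X P i hP =>
    obtain ⟨d, P1, h1⟩ := hP
    fin_cases i
    · refine ⟨d, P1 * X 0, ?_⟩
      intro R _ _ a0 a1 a2 s b
      have h4 : aeval ![a0, a1, a2, s * b, b] (X 0 : MvPolynomial (Fin 5) k) = a0 := by
        rw [aeval_X]; rfl
      rw [map_mul, h4, h1, map_mul]
      simp only [Fin.zero_eta, aeval_X, Matrix.cons_val_zero]
      ring
    · refine ⟨d, P1 * X 1, ?_⟩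
      intro R _ _ a0 a1 a2 s b
      have h4 : aeval ![a0, a1, a2, s * b, b] (X 1 : MvPolynomial (Fin 5) k) = a1 := by
        rw [aeval_X]; rfl
      have h5 : aeval ![a0, a1, a2, s] (X (⟨1, by decide⟩ : Fin 4) : MvPolynomial (Fin 4) k) =
          a1 := by
        rw [aeval_X]; rfl
      rw [map_mul, h4, h1, map_mul, h5]
      ring
    · refine ⟨d, P1 * X 2, ?_⟩
      intro R _ _ a0 a1 a2 s b
      have h4 : aeval ![a0, a1, a2, s * b, b] (X 2 : MvPolynomial (Fin 5) k) = a2 := by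
        rw [aeval_X]; rfl
      have h5 : aeval ![a0, a1, a2, s] (X (⟨2, by decide⟩ : Fin 4) : MvPolynomial (Fin 4) k) =
          a2 := by
        rw [aeval_X]; rfl
      rw [map_mul, h4, h1, map_mul, h5]
      ring
    · refine ⟨d + 1, P1 * X 3, ?_⟩
      intro R _ _ a0 a1 a2 s b
      have h4 : aeval ![a0, a1, a2, s * b, b] (X 3 : MvPolynomial (Fin 5) k) = s * b := by
        rw [aeval_X]; rfl
      have h5 : aeval ![a0, a1, a2, s] (X (⟨3, by decide⟩ : Fin 4) : MvPolynomial (Fin 4) k) =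
          s := by
        rw [aeval_X]; rfl
      rw [map_mul, h4, h1, map_mul, h5]
      ring

/-- congruent values -/
theorem dvd_aeval {k R σ : Type} [Field k] [CommRing R] [Algebra k R] (x : R) (f g : σ → R)
    (h : ∀ i, x ∣ f i - g i) (P : MvPolynomial σ k) : x ∣ aeval f P - aeval g P := by
  induction P using MvPolynomial.induction_on with
  | C a => rw [aeval_C, aeval_C, sub_self]; exact dvd_zero x
  | add P Q hP hQ =>
    rw [map_add, map_add]
    have : aeval f P + aeval f Q - (aeval g P + aeval g Q) =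
        (aeval f P - aeval g P) + (aeval f Q - aeval g Q) := by ring
    rw [this]; exact dvd_add hP hQ
  | mul_X P i hP =>
    rw [map_mul, map_mul, aeval_X, aeval_X]
    have : aeval f P * f i - aeval g P * g i =
        (aeval f P - aeval g P) * f i + aeval g P * (f i - g i) := by ring
    rw [this]; exact dvd_add (hP.mul_right _) ((h i).mul_left _)

/-- the expansion, multiplied by `X1 ^ m` -/
noncomputable def ESp (k : Type) [Field k] (α β : ℤ) (k1 l1 w m K1 : ℕ) (c : ℕ → k) (κ : k) :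
    MvPolynomial (Fin 4) k :=
  X 1 ^ (m * l1) * (∑ K ∈ Finset.Icc 1 K1, C (c K) * X 0 ^ (k1 - w * K) *
    X 1 ^ (α.toNat * K) + C (1 / (β : k)) * X 0 ^ k1 * (X 2 + C κ) +
    X 0 ^ (k1 + 1) * X 1 ^ m * X 3)

theorem aeval_ESp {k R : Type} [Field k] [CommRing R] [Algebra k R] (α β : ℤ)
    (k1 l1 w m K1 : ℕ) (c : ℕ → k) (κ : k) (x0 x1 x2 x3 : R) :
    aeval ![x0, x1, x2, x3] (ESp k α β k1 l1 w m K1 c κ) =
      x1 ^ (m * l1) * (∑ K ∈ Finset.Icc 1 K1, algebraMap k R (c K) * x0 ^ (k1 - w * K) *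
        x1 ^ (α.toNat * K) + algebraMap k R (1 / (β : k)) * x0 ^ k1 *
        (x2 + algebraMap k R κ) + x0 ^ (k1 + 1) * x1 ^ m * x3) := by
  have e0 : aeval ![x0, x1, x2, x3] (X 0 : MvPolynomial (Fin 4) k) = x0 := by rw [aeval_X]; rfl
  have e1 : aeval ![x0, x1, x2, x3] (X 1 : MvPolynomial (Fin 4) k) = x1 := by rw [aeval_X]; rfl
  have e2 : aeval ![x0, x1, x2, x3] (X 2 : MvPolynomial (Fin 4) k) = x2 := by rw [aeval_X]; rfl
  have e3 : aeval ![x0, x1, x2, x3] (X 3 : MvPolynomial (Fin 4) k) = x3 := by rw [aeval_X]; rfl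
  unfold ESp
  simp only [map_mul, map_pow, map_add, map_sum, e0, e1, e2, e3, aeval_C]

theorem xx_ne {k : Type} [Field k] {n : ℕ} (i : Fin n) : xx k i ≠ 0 := by
  unfold xx
  rw [Ne, IsFractionRing.to_map_eq_zero_iff]
  exact X_ne_zero i

theorem ES_eq {k : Type} [Field k] (α β : ℤ) (k1 l1 w m K1 : ℕ) (c : ℕ → k) (κ : k)
    (hα : 0 < α) (hβ : (β : k) ≠ 0) (hw : w * K1 ≤ k1) :
    ES k α β k1 l1 w m K1 c κ * xx k 1 ^ m =
      algebraMap (MvPolynomial (Fin 4) k) (RF k 4) (ESp k α β k1 l1 w m K1 c κ) := by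
  have h0 : xx k (0 : Fin 4) ≠ 0 := xx_ne 0
  have h1 : xx k (1 : Fin 4) ≠ 0 := xx_ne 1
  have e : algebraMap (MvPolynomial (Fin 4) k) (RF k 4) (ESp k α β k1 l1 w m K1 c κ) =
      aeval ![xx k 0, xx k 1, xx k 2, xx k 3] (ESp k α β k1 l1 w m K1 c κ) := by
    have : (IsScalarTower.toAlgHom k (MvPolynomial (Fin 4) k) (RF k 4)) =
        aeval ![xx k 0, xx k 1, xx k 2, xx k 3] := by
      refine MvPolynomial.algHom_ext fun i => ?_
      rw [aeval_X]
      fin_cases i <;> rfl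
    exact DFunLike.congr_fun this _
  rw [e, aeval_ESp]
  unfold ES
  have hβ' : algebraMap k (RF k 4) (β : k) ≠ 0 := (map_ne_zero _).2 hβ
  have hsum : xx k (0 : Fin 4) ^ k1 * (∑ K ∈ Finset.Icc 1 K1,
      algebraMap k (RF k 4) (c K) * xx k 0 ^ (-((w * K : ℕ) : ℤ)) *
        xx k 1 ^ (α * K - m)) * xx k 1 ^ m =
      ∑ K ∈ Finset.Icc 1 K1, algebraMap k (RF k 4) (c K) * xx k 0 ^ (k1 - w * K) *
        xx k 1 ^ (α.toNat * K) := by
    rw [Finset.mul_sum, Finset.sum_mul]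
    refine Finset.sum_congr rfl fun K hK => ?_
    have hK2 : w * K ≤ k1 := le_trans (Nat.mul_le_mul_left _ (Finset.mem_Icc.1 hK).2) hw
    have a1 : xx k (0 : Fin 4) ^ k1 * xx k 0 ^ (-((w * K : ℕ) : ℤ)) =
        xx k 0 ^ (k1 - w * K) := by
      rw [← zpow_natCast, ← zpow_add₀ h0, ← zpow_natCast]
      congr 1
      push_cast [Nat.cast_sub hK2]
      ring
    have a2 : xx k (1 : Fin 4) ^ (α * K - m) * xx k 1 ^ m = xx k 1 ^ (α.toNat * K) := by
      rw [← zpow_natCast, ← zpow_add₀ h1, ← zpow_natCast]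
      congr 1
      push_cast [Int.toNat_of_nonneg hα.le]
      ring
    calc xx k (0 : Fin 4) ^ k1 * (algebraMap k (RF k 4) (c K) *
          xx k 0 ^ (-((w * K : ℕ) : ℤ)) * xx k 1 ^ (α * K - m)) * xx k 1 ^ m
        = algebraMap k (RF k 4) (c K) * (xx k 0 ^ k1 * xx k 0 ^ (-((w * K : ℕ) : ℤ))) *
          (xx k 1 ^ (α * K - m) * xx k 1 ^ m) := by ring
      _ = _ := by rw [a1, a2]
  have hdiv : (xx k 2 + algebraMap k (RF k 4) κ) /
      (algebraMap k (RF k 4) (β : k) * xx k (1 : Fin 4) ^ m) * xx k 1 ^ m =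
      algebraMap k (RF k 4) (1 / (β : k)) * (xx k 2 + algebraMap k (RF k 4) κ) := by
    rw [map_div₀, map_one]
    field_simp
  calc xx k 0 ^ k1 * xx k 1 ^ (m * l1) *
        (∑ K ∈ Finset.Icc 1 K1, algebraMap k (RF k 4) (c K) * xx k 0 ^ (-((w * K : ℕ) : ℤ)) *
            xx k 1 ^ (α * K - m) +
          (xx k 2 + algebraMap k (RF k 4) κ) /
            (algebraMap k (RF k 4) (β : k) * xx k 1 ^ m) +
          xx k 0 * xx k 3) * xx k 1 ^ m
      = xx k 1 ^ (m * l1) * (xx k (0 : Fin 4) ^ k1 * (∑ K ∈ Finset.Icc 1 K1,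
          algebraMap k (RF k 4) (c K) * xx k 0 ^ (-((w * K : ℕ) : ℤ)) *
            xx k 1 ^ (α * K - m)) * xx k 1 ^ m +
          xx k 0 ^ k1 * ((xx k 2 + algebraMap k (RF k 4) κ) /
            (algebraMap k (RF k 4) (β : k) * xx k (1 : Fin 4) ^ m) * xx k 1 ^ m) +
          xx k 0 ^ (k1 + 1) * xx k 1 ^ m * xx k 3) := by ring
    _ = _ := by
      rw [hsum, hdiv]
      ring

end Pool.Agent.H11.SYA
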