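import Pool.Agent.H11.SYA.EXA1

/-!
Row EXX of the board `sya_modules`: existence of the expansion data.
-/

set_option autoImplicit false

namespace Pool.Agent.H11.SYA

open MvPolynomial Pool.Agent.H2.ST Pool.Agent.H15.TG Pool.Agent.H19.SYA

/-- the expansion in the localized ring -/
theorem exp_core {k B : Type} [Field k] [CommRing B] [Algebra k B]
    (P0 Q0 iq H0 S0 f0 Y0 ρ2 : B) (hiq : Q0 * iq = 1) (a k1 l1 w K1 N0 N1 : ℕ) (c : ℕ → k)
    (κ b : k) (hN : ∀ K, K ≤ K1 → N0 * (a * K) ≤ N1)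
    (hexp : Q0 ^ (N1 + 1) * S0 = ∑ K ∈ Finset.Icc 1 K1,
        algebraMap k B (c K) * P0 ^ (k1 - w * K) * f0 ^ (a * K) *
          Q0 ^ (l1 + N1 - N0 * (a * K)) +
      algebraMap k B b * P0 ^ k1 * Q0 ^ (l1 + N1) * (H0 + algebraMap k B κ) +
        P0 ^ (k1 + 1) * Y0)
    (hρ : P0 ^ (k1 + 2) ∣ f0 * iq ^ N0 - ρ2) :
    ∃ z : B, Q0 * S0 = Q0 ^ l1 * (∑ K ∈ Finset.Icc 1 K1,
        algebraMap k B (c K) * P0 ^ (k1 - w * K) * ρ2 ^ (a * K) +
      algebraMap k B b * P0 ^ k1 * (H0 + algebraMap k B κ) +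
        P0 ^ (k1 + 1) * Q0 * ((Y0 * iq ^ N1 + P0 * z) * iq ^ (l1 + 1))) := by
  set ρ0 := f0 * iq ^ N0 with hρ0
  have hpow : ∀ n : ℕ, Q0 ^ n * iq ^ n = 1 := fun n => by rw [← mul_pow, hiq, one_pow]
  have hs : ∀ K, P0 ^ (k1 + 2) ∣ ρ0 ^ (a * K) - ρ2 ^ (a * K) := fun K =>
    hρ.trans (sub_dvd_pow_sub_pow _ _ _)
  choose z hz using hs
  have h1 : Q0 * S0 = (Q0 ^ (N1 + 1) * S0) * iq ^ N1 := by
    rw [pow_succ]
    calc Q0 * S0 = (Q0 ^ N1 * iq ^ N1) * (Q0 * S0) := by rw [hpow, one_mul]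
      _ = _ := by ring
  have h2 : (∑ K ∈ Finset.Icc 1 K1, algebraMap k B (c K) * P0 ^ (k1 - w * K) * f0 ^ (a * K) *
      Q0 ^ (l1 + N1 - N0 * (a * K))) * iq ^ N1 =
      Q0 ^ l1 * ∑ K ∈ Finset.Icc 1 K1, algebraMap k B (c K) * P0 ^ (k1 - w * K) *
        ρ0 ^ (a * K) := by
    rw [Finset.sum_mul, Finset.mul_sum]
    refine Finset.sum_congr rfl fun K hK => ?_
    have hK2 := hN K (Finset.mem_Icc.1 hK).2
    have e1 : l1 + N1 - N0 * (a * K) = l1 + (N1 - N0 * (a * K)) := by omega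
    have e2 : iq ^ N1 = iq ^ (N1 - N0 * (a * K)) * iq ^ (N0 * (a * K)) := by
      rw [← pow_add]; congr 1; omega
    rw [e1, e2, pow_add, hρ0, mul_pow, ← pow_mul iq N0 (a * K)]
    calc algebraMap k B (c K) * P0 ^ (k1 - w * K) * f0 ^ (a * K) *
          (Q0 ^ l1 * Q0 ^ (N1 - N0 * (a * K))) *
          (iq ^ (N1 - N0 * (a * K)) * iq ^ (N0 * (a * K)))
        = algebraMap k B (c K) * P0 ^ (k1 - w * K) * f0 ^ (a * K) * Q0 ^ l1 *
          (Q0 ^ (N1 - N0 * (a * K)) * iq ^ (N1 - N0 * (a * K))) *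
          iq ^ (N0 * (a * K)) := by ring
      _ = _ := by rw [hpow]; ring
  have h3 : ∑ K ∈ Finset.Icc 1 K1, algebraMap k B (c K) * P0 ^ (k1 - w * K) *
        ρ0 ^ (a * K) = ∑ K ∈ Finset.Icc 1 K1, algebraMap k B (c K) * P0 ^ (k1 - w * K) *
        ρ2 ^ (a * K) + P0 ^ (k1 + 2) * ∑ K ∈ Finset.Icc 1 K1, algebraMap k B (c K) *
          P0 ^ (k1 - w * K) * z K := by
    rw [Finset.mul_sum, ← Finset.sum_add_distrib]
    refine Finset.sum_congr rfl fun K _ => ?_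
    have : ρ0 ^ (a * K) = ρ2 ^ (a * K) + P0 ^ (k1 + 2) * z K := by rw [← hz K]; ring
    rw [this]; ring
  refine ⟨Q0 ^ l1 * ∑ K ∈ Finset.Icc 1 K1, algebraMap k B (c K) *
          P0 ^ (k1 - w * K) * z K, ?_⟩
  rw [h1, hexp, add_mul, add_mul, h2, h3]
  have e3 : Q0 ^ l1 * (P0 ^ (k1 + 1) * Q0 * ((Y0 * iq ^ N1 + P0 * (Q0 ^ l1 *
      ∑ K ∈ Finset.Icc 1 K1, algebraMap k B (c K) * P0 ^ (k1 - w * K) * z K)) *
      iq ^ (l1 + 1))) = P0 ^ (k1 + 1) * (Y0 * iq ^ N1 + P0 * (Q0 ^ l1 *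
      ∑ K ∈ Finset.Icc 1 K1, algebraMap k B (c K) * P0 ^ (k1 - w * K) * z K)) := by
    calc _ = P0 ^ (k1 + 1) * (Y0 * iq ^ N1 + P0 * (Q0 ^ l1 *
          ∑ K ∈ Finset.Icc 1 K1, algebraMap k B (c K) * P0 ^ (k1 - w * K) * z K)) *
          (Q0 ^ (l1 + 1) * iq ^ (l1 + 1)) := by ring
      _ = _ := by rw [hpow, mul_one]
  have e4 : algebraMap k B b * P0 ^ k1 * Q0 ^ (l1 + N1) * (H0 + algebraMap k B κ) * iq ^ N1 =
      Q0 ^ l1 * (algebraMap k B b * P0 ^ k1 * (H0 + algebraMap k B κ)) := by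
    calc _ = algebraMap k B b * P0 ^ k1 * Q0 ^ l1 * (H0 + algebraMap k B κ) *
          (Q0 ^ N1 * iq ^ N1) := by rw [pow_add]; ring
      _ = _ := by rw [hpow]; ring
  rw [e4]
  linear_combination (-1 : B) * e3

/-- a polynomial without `X 0` -/
theorem ren_eq {k : Type} [Field k] (R : MvPolynomial (Fin 4) k)
    (hRs : ∀ s ∈ R.support, s 0 = 0) :
    rename Fin.succ (aeval (Fin.cons 0 X : Fin 4 → MvPolynomial (Fin 3) k) R) = R := by
  have h1 : rename Fin.succ (aeval (Fin.cons 0 X : Fin 4 → MvPolynomial (Fin 3) k) R) =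
      aeval (Fin.cons 0 (fun j => X (Fin.succ j)) : Fin 4 → MvPolynomial (Fin 4) k) R := by
    rw [MvPolynomial.comp_aeval_apply]
    congr 2
    funext i
    refine Fin.cases ?_ (fun j => ?_) i
    · rw [Fin.cons_zero, Fin.cons_zero, map_zero]
    · rw [Fin.cons_succ, Fin.cons_succ, rename_X]
  rw [h1]
  conv_rhs => rw [R.as_sum]
  conv_lhs => rw [R.as_sum]
  rw [map_sum]
  refine Finset.sum_congr rfl fun s hs => ?_
  have h2 : ∏ i : Fin 4, (Fin.cons 0 (fun j => X (Fin.succ j)) :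
      Fin 4 → MvPolynomial (Fin 4) k) i ^ s i = ∏ i : Fin 4, X i ^ s i := by
    rw [Fin.prod_univ_succ, Fin.prod_univ_succ (fun i : Fin 4 =>
      (X i : MvPolynomial (Fin 4) k) ^ s i), hRs s hs, pow_zero, pow_zero]
    congr 1
  rw [aeval_monomial, monomial_eq, algebraMap_eq,
    Finsupp.prod_fintype _ _ (fun _ => pow_zero _),
    Finsupp.prod_fintype _ _ (fun _ => pow_zero _), h2]

/-- vanishing of the restriction to `X 0 = 0` -/
theorem dvd_of_van {k L : Type} [Field k] [Field L] [Algebra k L] (v : Fin 3 → L) (ζ : L)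
    (ind : AlgebraicIndependent k ![v 0, v 1, ζ]) (G : MvPolynomial (Fin 4) k)
    (hG : aeval ![0, v 0, v 1, ζ] G = 0) : X 0 ∣ G := by
  rw [X_dvd_iff_modMonomial_eq_zero]
  set R := G.modMonomial (Finsupp.single 0 1) with hR
  have hdec : X 0 * (G.divMonomial (Finsupp.single 0 1)) + R = G :=
    divMonomial_add_modMonomial_single G (0 : Fin 4)
  have hR0 : aeval ![0, v 0, v 1, ζ] R = 0 := by
    have := congrArg (aeval ![0, v 0, v 1, ζ]) hdec
    rw [map_add, map_mul, aeval_X, hG] at this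
    simpa using this
  have hRs : ∀ s ∈ R.support, s 0 = 0 := by
    intro s hs
    by_contra hne
    have h1 : Finsupp.single (0 : Fin 4) 1 ≤ s := by
      rw [Finsupp.single_le_iff]; omega
    have h2 := coeff_modMonomial_of_le G h1
    exact (mem_support_iff.1 hs) h2
  have hRR := ren_eq R hRs
  set R' : MvPolynomial (Fin 3) k := aeval (Fin.cons 0 X : Fin 4 → MvPolynomial (Fin 3) k) R
    with hR'
  have hR'0 : aeval ![v 0, v 1, ζ] R' = 0 := by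
    have h1 : aeval ![v 0, v 1, ζ] R' = aeval ![0, v 0, v 1, ζ] (rename Fin.succ R') := by
      rw [aeval_rename]
      congr 1
    rw [h1, hRR, hR0]
  have hR'z : R' = 0 := by
    rw [algebraicIndependent_iff] at ind
    exact ind R' hR'0
  rw [← hRR, hR'z, map_zero]

/-- the values -/
theorem val_core {k L B : Type} [Field k] [Field L] [Algebra k L] [CommRing B] [IsDomain B]
    [Algebra k B] (θ : B →ₐ[k] L) (P0 Q0 H0 S0 FF ρ2 Z : B) (v : Fin 3 → L) (ζ : L)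
    (α β : ℤ) (k1 l1 w m K1 : ℕ) (c : ℕ → k) (κ : k)
    (hα : 0 < α) (hβ : (β : k) ≠ 0) (hw : w * K1 ≤ k1)
    (hp : P0 ≠ 0) (tp : θ P0 = 0) (tq : θ Q0 = v 0 ^ m) (tH : θ H0 = v 1)
    (tρ : θ ρ2 = v 0) (tZ : θ Z = ζ) (ind : AlgebraicIndependent k ![v 0, v 1, ζ])
    (N J : ℕ) (hJ : N < J) (hρ : P0 ^ J ∣ ρ2 ^ m - Q0)
    (hexp : Q0 * S0 = Q0 ^ l1 * (∑ K ∈ Finset.Icc 1 K1,
        algebraMap k B (c K) * P0 ^ (k1 - w * K) * ρ2 ^ (α.toNat * K) +
      algebraMap k B (1 / (β : k)) * P0 ^ k1 * (H0 + algebraMap k B κ) +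
        P0 ^ (k1 + 1) * Q0 * Z))
    (P : MvPolynomial (Fin 4) k) (hF : (P0 * Q0) ^ N * FF = aeval ![P0, Q0, H0, S0] P) :
    ∃ (M : ℕ) (G : MvPolynomial (Fin 4) k),
      aeval ![xx k 0, xx k 1 ^ m, xx k 2, ES k α β k1 l1 w m K1 c κ] P * xx k 1 ^ M =
        xx k 0 ^ N * algebraMap _ (RF k 4) G ∧
      θ FF * v 0 ^ (M + m * N) = aeval ![0, v 0, v 1, ζ] G := by
  obtain ⟨d, Ph, hPh⟩ := hom_ex P
  set E := ESp k α β k1 l1 w m K1 c κ with hE
  set G1 : MvPolynomial (Fin 4) k := aeval ![X 0, X 1 ^ m, X 2, E, X 1 ^ m] Ph with hG1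
  have hG1R : aeval ![xx k 0, xx k 1 ^ m, xx k 2, ES k α β k1 l1 w m K1 c κ] P *
      xx k 1 ^ (m * d) = algebraMap _ (RF k 4) G1 := by
    have h1 := hPh (RF k 4) (xx k 0) (xx k 1 ^ m) (xx k 2) (ES k α β k1 l1 w m K1 c κ)
      (xx k 1 ^ m)
    rw [ES_eq α β k1 l1 w m K1 c κ hα hβ hw] at h1
    rw [pow_mul, ← h1, hG1]
    have h2 : algebraMap (MvPolynomial (Fin 4) k) (RF k 4)
        (aeval ![X 0, X 1 ^ m, X 2, E, X 1 ^ m] Ph) =
        (IsScalarTower.toAlgHom k (MvPolynomial (Fin 4) k) (RF k 4))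
          (aeval ![X 0, X 1 ^ m, X 2, E, X 1 ^ m] Ph) := rfl
    rw [h2, MvPolynomial.comp_aeval_apply]
    congr 2
    funext i
    fin_cases i
    · rfl
    · exact (map_pow _ _ _).symm
    · rfl
    · rfl
    · exact (map_pow _ _ _).symm
  -- the value of `G1` at the point
  have hval : ∀ (R : Type) [CommRing R] [Algebra k R] (x0 x1 x2 x3 : R),
      aeval ![x0, x1, x2, x3] G1 =
        aeval ![x0, x1 ^ m, x2, aeval ![x0, x1, x2, x3] E, x1 ^ m] Ph := by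
    intro R _ _ x0 x1 x2 x3
    rw [hG1, MvPolynomial.comp_aeval_apply]
    congr 2
    funext i
    fin_cases i
    · change aeval ![x0, x1, x2, x3] (X 0 : MvPolynomial (Fin 4) k) = x0
      rw [aeval_X]; rfl
    · change aeval ![x0, x1, x2, x3] (X 1 ^ m : MvPolynomial (Fin 4) k) = x1 ^ m
      rw [map_pow, aeval_X]; rfl
    · change aeval ![x0, x1, x2, x3] (X 2 : MvPolynomial (Fin 4) k) = x2
      rw [aeval_X]; rfl
    · rfl
    · change aeval ![x0, x1, x2, x3] (X 1 ^ m : MvPolynomial (Fin 4) k) = x1 ^ m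
      rw [map_pow, aeval_X]; rfl
  have hEv : P0 ^ J ∣ aeval ![P0, ρ2, H0, Z] E - S0 * Q0 := by
    rw [hE, aeval_ESp, mul_comm S0 Q0, hexp]
    set sg := ∑ K ∈ Finset.Icc 1 K1, algebraMap k B (c K) * P0 ^ (k1 - w * K) *
      ρ2 ^ (α.toNat * K) with hsg
    set T1 := algebraMap k B (1 / (β : k)) * P0 ^ k1 * (H0 + algebraMap k B κ) with hT
    have h1 : P0 ^ J ∣ ρ2 ^ (m * l1) - Q0 ^ l1 := by
      rw [pow_mul]; exact hρ.trans (sub_dvd_pow_sub_pow _ _ _)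
    have e : ρ2 ^ (m * l1) * (sg + T1 + P0 ^ (k1 + 1) * ρ2 ^ m * Z) -
        Q0 ^ l1 * (sg + T1 + P0 ^ (k1 + 1) * Q0 * Z) =
        (ρ2 ^ (m * l1) - Q0 ^ l1) * (sg + T1 + P0 ^ (k1 + 1) * ρ2 ^ m * Z) +
        (ρ2 ^ m - Q0) * (Q0 ^ l1 * P0 ^ (k1 + 1) * Z) := by ring
    rw [e]
    exact dvd_add (h1.mul_right _) (hρ.mul_right _)
  have hG1v : P0 ^ J ∣ aeval ![P0, ρ2, H0, Z] G1 - (P0 * Q0) ^ N * FF * Q0 ^ d := by
    rw [hval B P0 ρ2 H0 Z, hF, ← hPh B P0 Q0 H0 S0 Q0]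
    refine dvd_aeval _ _ _ (fun i => ?_) Ph
    fin_cases i
    · change P0 ^ J ∣ P0 - P0
      rw [sub_self]; exact dvd_zero _
    · exact hρ
    · change P0 ^ J ∣ H0 - H0
      rw [sub_self]; exact dvd_zero _
    · exact hEv
    · exact hρ
  -- the evaluation of `θ`
  have hθev : ∀ G : MvPolynomial (Fin 4) k, θ (aeval ![P0, ρ2, H0, Z] G) =
      aeval ![0, v 0, v 1, ζ] G := by
    intro G
    rw [MvPolynomial.comp_aeval_apply]
    congr 2
    funext i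
    fin_cases i
    · exact tp
    · exact tρ
    · exact tH
    · exact tZ
  have hdvd := dvd_of_van v ζ ind
  -- divisibility by induction
  have hdiv : ∀ i ≤ N, ∃ G : MvPolynomial (Fin 4) k, G1 = X 0 ^ i * G := by
    intro i
    induction i with
    | zero => intro _; exact ⟨G1, by rw [pow_zero, one_mul]⟩
    | succ i ih =>
      intro hi
      obtain ⟨G, hG⟩ := ih (by omega)
      obtain ⟨z, hz⟩ := hG1v
      have h1 : aeval ![P0, ρ2, H0, Z] G1 = P0 ^ i * aeval ![P0, ρ2, H0, Z] G := by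
        rw [hG, map_mul, map_pow, aeval_X]; rfl
      rw [h1] at hz
      have h2 : P0 ^ i * aeval ![P0, ρ2, H0, Z] G =
          P0 ^ i * (P0 * (P0 ^ (N - i - 1) * Q0 ^ N * FF * Q0 ^ d + P0 ^ (J - i - 1) * z)) := by
        have e1 : P0 ^ N = P0 ^ i * (P0 * P0 ^ (N - i - 1)) := by
          rw [← pow_succ', ← pow_add]; congr 1; omega
        have e2 : P0 ^ J = P0 ^ i * (P0 * P0 ^ (J - i - 1)) := by
          rw [← pow_succ', ← pow_add]; congr 1; omega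
        have e3 : P0 ^ i * aeval ![P0, ρ2, H0, Z] G = (P0 * Q0) ^ N * FF * Q0 ^ d + P0 ^ J * z := by
          rw [← hz]; ring
        rw [e3, mul_pow, e1, e2]; ring
      have h3 := mul_left_cancel₀ (pow_ne_zero i hp) h2
      have h4 : aeval ![0, v 0, v 1, ζ] G = 0 := by
        rw [← hθev, h3, map_mul, tp, zero_mul]
      obtain ⟨G', hG'⟩ := hdvd G h4
      exact ⟨G', by rw [hG, hG', pow_succ]; ring⟩
  obtain ⟨G, hG⟩ := hdiv N le_rfl
  refine ⟨m * d, G, ?_, ?_⟩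
  · rw [hG1R, hG, map_mul, map_pow]; rfl
  · obtain ⟨z, hz⟩ := hG1v
    have h1 : aeval ![P0, ρ2, H0, Z] G1 = P0 ^ N * aeval ![P0, ρ2, H0, Z] G := by
      rw [hG, map_mul, map_pow, aeval_X]; rfl
    rw [h1] at hz
    have h2 : P0 ^ N * aeval ![P0, ρ2, H0, Z] G =
        P0 ^ N * (Q0 ^ N * FF * Q0 ^ d + P0 * (P0 ^ (J - N - 1) * z)) := by
      have e2 : P0 ^ J = P0 ^ N * (P0 * P0 ^ (J - N - 1)) := by
        rw [← pow_succ', ← pow_add]; congr 1; omega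
      have e3 : P0 ^ N * aeval ![P0, ρ2, H0, Z] G = (P0 * Q0) ^ N * FF * Q0 ^ d + P0 ^ J * z := by
        rw [← hz]; ring
      rw [e3, mul_pow, e2]; ring
    have h3 := mul_left_cancel₀ (pow_ne_zero N hp) h2
    rw [← hθev, h3, map_add, map_mul, map_mul, map_mul, map_pow, map_pow, tq, map_mul, tp,
      zero_mul, add_zero]
    ring

/-- all elements of the chart -/
theorem img_all {k : Type} [Field k] {W : ℤ → Submodule k (Pol k 2)} (h : Gr W)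
    {L : Type} [Field L] [Algebra k L] (Θ : Pol k 2 →ₐ[k] L) (v : Fin 3 → L)
    (himg : ∀ (n : ℤ) (F : Pol k 2), F ∈ W n → ∃ (N : ℕ) (P : MvPolynomial (Fin 3) k),
      Θ F * v 0 ^ N = aeval v P) (Y : Pol k 2) :
    ∃ (N : ℕ) (P : MvPolynomial (Fin 3) k), Θ Y * v 0 ^ N = aeval v P := by
  have h1 : ∀ s : Finset ℤ, ∃ (N : ℕ) (P : MvPolynomial (Fin 3) k),
      Θ (∑ a ∈ s, cmp h Y a) * v 0 ^ N = aeval v P := by
    intro s
    induction s using Finset.induction_on with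
    | empty => exact ⟨0, 0, by rw [Finset.sum_empty, map_zero, zero_mul, map_zero]⟩
    | insert a s ha ih =>
      obtain ⟨N, P, hP⟩ := ih
      obtain ⟨N', P', hP'⟩ := himg a (cmp h Y a) (cmp_mem h Y a)
      refine ⟨N + N', P' * X 0 ^ N + P * X 0 ^ N', ?_⟩
      rw [Finset.sum_insert ha, map_add, map_add, map_mul, map_mul, map_pow, map_pow, aeval_X,
        ← hP, ← hP']
      ring
  have h2 := h1 (cmp h Y).support
  have h3 : ∑ a ∈ (cmp h Y).support, cmp h Y a = Y := cmp_sum h Y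
  rwa [h3] at h2

/-- the theorem with an abstract localization -/
theorem exx_core (hR : T_RHO) (hE : T_EXA) (k : Type) [Field k] [IsAlgClosed k] [CharZero k]
    (W : ℤ → Submodule k (Pol k 2)) (H : Pol k 2) (y : Fin 2 ⊕ Fin 2 → Pol k 2)
    (wy : Fin 2 → ℤ) (p q S : Pol k 2) (α β : ℤ) (k1 l1 : ℕ) (L : Type) [Field L] [Algebra k L]
    (Θ : Pol k 2 →ₐ[k] L) (v : Fin 3 → L) (w m : ℕ) (hy : Hy W H y wy)
    (hP : Pr W H p q S α β k1 l1) (hC : Cht W H p q α β Θ v w m)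
    (B : Type) [CommRing B] [IsDomain B] [Algebra k B] (ι : Pol k 2 →ₐ[k] B) (θ : B →ₐ[k] L)
    (hθ : ∀ x, θ (ι x) = Θ x) (iq : B) (hiq : ι q * iq = 1) (hp : ι p ≠ 0) :
    ∃ (K1 : ℕ) (c : ℕ → k) (κ : k) (ζ : L), Ex W H p q S α β k1 l1 Θ v w m K1 c κ ζ := by
  obtain ⟨⟨N00, F00, h00⟩, hR2⟩ := hR k W H p q α β L Θ v w m hy.toPGr hC
  obtain ⟨N0, F0, hF0, _⟩ := hR2 1 N00 F00 le_rfl h00 (2 * k1 + 2) (by omega)
  obtain ⟨K1, c, κ, N1, Y, htop, hpole, hN, hexp, hbp, hbq⟩ :=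
    hE k W H y wy p q S α β k1 l1 L Θ v w m (2 * k1 + 2) N0 F0 hy hP hC le_rfl hF0
  have hv0 : v 0 ≠ 0 := hC.ind.ne_zero 0
  have hΘq : Θ q ≠ 0 := by rw [hC.tf]; exact pow_ne_zero _ hv0
  have hΘp : Θ p = 0 := (hC.ker p).2 dvd_rfl
  have hβk : (β : k) ≠ 0 := by
    exact_mod_cast hC.pb.ne'
  have hαk : (α : k) ≠ 0 := by
    exact_mod_cast hC.pa.ne'
  have hθq : θ iq = (Θ q)⁻¹ := by
    have h1 := congrArg θ hiq
    rw [map_mul, hθ, map_one] at h1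
    exact eq_inv_of_mul_eq_one_right h1
  -- independence
  have hind : AlgebraicIndependent k ![v 0, v 1, Θ Y * (Θ q)⁻¹ ^ (N1 + l1 + 1)] := by
    obtain ⟨N, P, hNP⟩ := img_all hy.toGr Θ v (fun n F hF => by
      obtain ⟨N, P, h1, _⟩ := hC.img n F hF
      exact ⟨N, P, h1⟩) Y
    have h1 := hC.dg Y N P hNP
    rw [hbp, hC.tf] at h1
    set a : k := -((α : k) / (β : k)) with ha
    have ha0 : a ≠ 0 := neg_ne_zero.2 (div_ne_zero hαk hβk)
    set e : ℕ := m * (l1 + N1) + N with he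
    have h2 : pderiv 2 P = C a * X 0 ^ e := by
      have hinj := hC.ind
      rw [AlgebraicIndependent] at hinj
      apply hinj
      rw [← h1, map_mul, map_pow, aeval_C, aeval_X, he, ← pow_mul, pow_add (v 0)]
      ring
    have h3 : pderiv 2 (P - C a * X 0 ^ e * X 2) = 0 := by
      rw [map_sub, h2, Derivation.leibniz, Derivation.leibniz, Derivation.leibniz_pow,
        pderiv_X_self, pderiv_X_of_ne (by decide), pderiv_C]
      simp
    refine ind_tri v hC.ind _ (aeval v (P - C a * X 0 ^ e * X 2)) a ha0 e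
      (m * (N1 + l1 + 1) + N) (aeval_mem_of_pderiv v _ h3) ?_
    rw [map_sub, map_mul, map_mul, map_pow, aeval_C, aeval_X, aeval_X, ← hNP, hC.tf]
    have h4 : (v 0 ^ m)⁻¹ ^ (N1 + l1 + 1) * v 0 ^ (m * (N1 + l1 + 1)) = 1 := by
      rw [pow_mul, ← mul_pow, inv_mul_cancel₀ (pow_ne_zero _ hv0), one_pow]
    rw [pow_add (v 0)]
    calc Θ Y * (v 0 ^ m)⁻¹ ^ (N1 + l1 + 1) * (v 0 ^ (m * (N1 + l1 + 1)) * v 0 ^ N)
        = Θ Y * v 0 ^ N * ((v 0 ^ m)⁻¹ ^ (N1 + l1 + 1) * v 0 ^ (m * (N1 + l1 + 1))) := by ring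
      _ = _ := by rw [h4]; ring
  refine ⟨K1, c, κ, Θ Y * (Θ q)⁻¹ ^ (N1 + l1 + 1), htop, hpole, hind, ?_⟩
  intro F N P hFP
  obtain ⟨N2, F2, hF2, hdv⟩ := hR2 (2 * k1 + 2) N0 F0 (by omega) hF0 (N + (2 * k1 + 2))
    (by omega)
  have hpow : ∀ n : ℕ, ι q ^ n * iq ^ n = 1 := fun n => by rw [← mul_pow, hiq, one_pow]
  -- the difference of the roots
  have hρ : ι p ^ (k1 + 2) ∣ ι F0 * iq ^ N0 - ι F2 * iq ^ N2 := by
    have h1 : ι p ^ (2 * k1 + 2) ∣ ι F2 * ι q ^ N0 - ι F0 * ι q ^ N2 := by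
      have := map_dvd ι hdv
      simpa only [map_pow, map_sub, map_mul] using this
    have h2 : ι F0 * iq ^ N0 - ι F2 * iq ^ N2 =
        (ι F2 * ι q ^ N0 - ι F0 * ι q ^ N2) * (-(iq ^ N0 * iq ^ N2)) := by
      have e1 : ι F2 * ι q ^ N0 * (iq ^ N0 * iq ^ N2) = ι F2 * iq ^ N2 := by
        calc _ = ι F2 * iq ^ N2 * (ι q ^ N0 * iq ^ N0) := by ring
          _ = _ := by rw [hpow, mul_one]
      have e2 : ι F0 * ι q ^ N2 * (iq ^ N0 * iq ^ N2) = ι F0 * iq ^ N0 := by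
        calc _ = ι F0 * iq ^ N0 * (ι q ^ N2 * iq ^ N2) := by ring
          _ = _ := by rw [hpow, mul_one]
      rw [mul_neg, sub_mul, e1, e2]; ring
    rw [h2]
    exact ((pow_dvd_pow _ (by omega)).trans h1).mul_right _
  have hρm : ι p ^ (N + (2 * k1 + 2)) ∣ (ι F2 * iq ^ N2) ^ m - ι q := by
    have h1 : ι p ^ (N + (2 * k1 + 2)) ∣ ι F2 ^ m - ι q ^ (N2 * m + 1) := by
      have := map_dvd ι hF2.dv
      simpa only [map_pow, map_sub, map_mul] using this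
    have h2 : (ι F2 * iq ^ N2) ^ m - ι q =
        (ι F2 ^ m - ι q ^ (N2 * m + 1)) * iq ^ (N2 * m) := by
      rw [mul_pow, sub_mul, ← pow_mul, pow_succ]
      have e1 : ι q ^ (N2 * m) * ι q * iq ^ (N2 * m) = ι q := by
        calc _ = ι q * (ι q ^ (N2 * m) * iq ^ (N2 * m)) := by ring
          _ = _ := by rw [hpow, mul_one]
      rw [e1]
    rw [h2]
    exact h1.mul_right _
  have halg : ∀ r : k, ι (C r) = algebraMap k B r := fun r => ι.commutes r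
  have hexpB : ι q ^ (N1 + 1) * ι S = ∑ K ∈ Finset.Icc 1 K1,
        algebraMap k B (c K) * ι p ^ (k1 - w * K) * ι F0 ^ (α.toNat * K) *
          ι q ^ (l1 + N1 - N0 * (α.toNat * K)) +
      algebraMap k B (1 / (β : k)) * ι p ^ k1 * ι q ^ (l1 + N1) *
        (ι H + algebraMap k B κ) + ι p ^ (k1 + 1) * ι Y := by
    have := congrArg ι hexp
    simpa only [map_mul, map_pow, map_add, map_sum, halg] using this
  obtain ⟨z, hz⟩ := exp_core (ι p) (ι q) iq (ι H) (ι S) (ι F0) (ι Y) (ι F2 * iq ^ N2) hiq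
    α.toNat k1 l1 w K1 N0 N1 c κ (1 / (β : k)) hN hexpB hρ
  have hFB : (ι p * ι q) ^ N * ι F = aeval ![ι p, ι q, ι H, ι S] P := by
    have h1 := congrArg ι hFP
    rw [map_mul, map_pow, map_mul] at h1
    rw [h1, MvPolynomial.comp_aeval_apply]
    congr 2
    funext i
    fin_cases i <;> rfl
  have htρ : θ (ι F2 * iq ^ N2) = v 0 := by
    rw [map_mul, map_pow, hθ, hθq, hF2.tF, mul_assoc, ← mul_pow, mul_inv_cancel₀ hΘq, one_pow,
      mul_one]
  have htZ : θ ((ι Y * iq ^ N1 + ι p * z) * iq ^ (l1 + 1)) =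
      Θ Y * (Θ q)⁻¹ ^ (N1 + l1 + 1) := by
    rw [map_mul, map_add, map_mul, map_mul, map_pow, map_pow, hθ, hθ, hΘp, zero_mul, add_zero,
      hθq, mul_assoc, ← pow_add, add_assoc]
  obtain ⟨M, G, h1, h2⟩ := val_core θ (ι p) (ι q) (ι H) (ι S) (ι F) (ι F2 * iq ^ N2)
    ((ι Y * iq ^ N1 + ι p * z) * iq ^ (l1 + 1)) v (Θ Y * (Θ q)⁻¹ ^ (N1 + l1 + 1)) α β k1 l1 w m
    K1 c κ hC.pa hβk hpole hp (by rw [hθ, hΘp]) (by rw [hθ, hC.tf]) (by rw [hθ, hC.tH]) htρ htZ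
    hind N (N + (2 * k1 + 2)) (by omega) hρm hz P hFB
  exact ⟨M, G, h1, by rw [← hθ F]; exact h2⟩

theorem pf_EXX (hR : T_RHO) (hE : T_EXA) : Pool.Agent.H19.SYA.T_EXX := by
  intro k _ _ _ W H y wy p q S α β k1 l1 L _ _ Θ v w m hy hP hC
  have hv0 : v 0 ≠ 0 := hC.ind.ne_zero 0
  have hΘq : Θ q ≠ 0 := by rw [hC.tf]; exact pow_ne_zero _ hv0
  have hq0 : q ≠ 0 := by rintro rfl; exact hΘq (map_zero _)
  have hle : Submonoid.powers q ≤ nonZeroDivisors (Pol k 2) :=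
    powers_le_nonZeroDivisors_of_noZeroDivisors hq0
  have hdom : IsDomain (Localization.Away q) :=
    IsLocalization.isDomain_localization hle
  let ι : Pol k 2 →ₐ[k] Localization.Away q :=
    IsScalarTower.toAlgHom k (Pol k 2) (Localization.Away q)
  have hu : ∀ y : Submonoid.powers q, IsUnit (Θ y) := by
    rintro ⟨_, n, rfl⟩
    change IsUnit (Θ (q ^ n))
    rw [map_pow]
    exact (IsUnit.mk0 _ hΘq).pow n
  let θ : Localization.Away q →ₐ[k] L :=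
    IsLocalization.liftAlgHom (M := Submonoid.powers q) (f := Θ) hu
  have hθ : ∀ x, θ (ι x) = Θ x := fun x => IsLocalization.lift_eq _ x
  obtain ⟨u, hu2⟩ := IsLocalization.Away.algebraMap_isUnit (S := Localization.Away q) q
  have hinj : Function.Injective (algebraMap (Pol k 2) (Localization.Away q)) :=
    IsLocalization.injective _ hle
  refine exx_core hR hE k W H y wy p q S α β k1 l1 L Θ v w m hy hP hC (Localization.Away q)
    ι θ hθ (↑u⁻¹) ?_ ?_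
  · change algebraMap (Pol k 2) (Localization.Away q) q * ↑u⁻¹ = 1
    rw [← hu2]
    exact u.mul_inv
  · change algebraMap (Pol k 2) (Localization.Away q) p ≠ 0
    rw [Ne, ← map_zero (algebraMap (Pol k 2) (Localization.Away q))]
    intro h
    exact hC.pg.ne_zero (hinj h)

end Pool.Agent.H11.SYA
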